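import Pool.Agent.Lib.MP_640417_ag.CMRep

/-!
# Descent of the coefficient field
-/

namespace Pool.Agent.Lib.MP_640417_ag.Gr

open Module TensorProduct

section aux

variable {F F' : Type} [Field F] [Field F'] [Algebra F F'] {V : Type} [AddCommGroup V]
  [Module F V]

/-- `1 ⊗ ι` on the base change. -/
private noncomputable def Descent_io (W : Type) [AddCommGroup W] [Module F W] :
    F' ⊗[F] W →ₗ[F'] F' ⊗[F] ExteriorAlgebra F W :=
  (ExteriorAlgebra.ι F : W →ₗ[F] ExteriorAlgebra F W).baseChange F'

private lemma Descent_anti (W : Type) [AddCommGroup W] [Module F W] (s t : F' ⊗[F] W) :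
    Descent_io (F' := F') W s * Descent_io (F' := F') W t
      + Descent_io (F' := F') W t * Descent_io (F' := F') W s = 0 := by
  induction s using TensorProduct.induction_on with
  | zero => simp
  | add x y hx hy =>
    rw [map_add, add_mul, mul_add]
    calc _ = (Descent_io (F' := F') W x * Descent_io (F' := F') W t
          + Descent_io (F' := F') W t * Descent_io (F' := F') W x)
        + (Descent_io (F' := F') W y * Descent_io (F' := F') W t
          + Descent_io (F' := F') W t * Descent_io (F' := F') W y) := by abel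
      _ = 0 := by rw [hx, hy, add_zero]
  | tmul a v =>
    induction t using TensorProduct.induction_on with
    | zero => simp
    | add x y hx hy =>
      rw [map_add, add_mul, mul_add]
      calc _ = (Descent_io (F' := F') W (a ⊗ₜ[F] v) * Descent_io (F' := F') W x
            + Descent_io (F' := F') W x * Descent_io (F' := F') W (a ⊗ₜ[F] v))
          + (Descent_io (F' := F') W (a ⊗ₜ[F] v) * Descent_io (F' := F') W y
            + Descent_io (F' := F') W y * Descent_io (F' := F') W (a ⊗ₜ[F] v)) := by abel
        _ = 0 := by rw [hx, hy, add_zero]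
    | tmul b w =>
      simp only [Descent_io, LinearMap.baseChange_tmul, Algebra.TensorProduct.tmul_mul_tmul]
      rw [mul_comm b a, ← TensorProduct.tmul_add, ExteriorAlgebra.ι_add_mul_swap,
        TensorProduct.tmul_zero]

private lemma Descent_sq (W : Type) [AddCommGroup W] [Module F W] (t : F' ⊗[F] W) :
    Descent_io (F' := F') W t * Descent_io (F' := F') W t = 0 := by
  induction t using TensorProduct.induction_on with
  | zero => simp
  | add x y hx hy =>
    rw [map_add, add_mul, mul_add, mul_add, hx, hy, zero_add, add_zero, Descent_anti]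
  | tmul a v =>
    simp only [Descent_io, LinearMap.baseChange_tmul, Algebra.TensorProduct.tmul_mul_tmul]
    rw [ExteriorAlgebra.ι_sq_zero, TensorProduct.tmul_zero]

/-- The coordinates of the base change. -/
private noncomputable def Descent_co (n : ℕ) :
    (Fin n → F' ⊗[F] V) →ₗ[F'] F' ⊗[F] (Fin n → V) :=
  ∑ a : Fin n, ((LinearMap.single F (fun _ : Fin n => V) a).baseChange F') ∘ₗ
    (LinearMap.proj a : (Fin n → F' ⊗[F] V) →ₗ[F'] F' ⊗[F] V)

private lemma Descent_co_apply (n : ℕ) (w : Fin n → F' ⊗[F] V) :
    Descent_co n w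
      = ∑ a : Fin n, (LinearMap.single F (fun _ : Fin n => V) a).baseChange F' (w a) := by
  simp [Descent_co]

/-- The comparison of the exterior algebras. -/
private noncomputable def Descent_al (n : ℕ) :
    ExteriorAlgebra F' (Fin n → F' ⊗[F] V) →ₐ[F'] F' ⊗[F] ExteriorAlgebra F (Fin n → V) :=
  ExteriorAlgebra.lift F' ⟨Descent_io (Fin n → V) ∘ₗ Descent_co n, fun w => by
    simp only [LinearMap.comp_apply]
    exact Descent_sq _ _⟩

private lemma Descent_al_ι (n : ℕ) (w : Fin n → F' ⊗[F] V) :
    Descent_al (F := F) (V := V) n (ExteriorAlgebra.ι F' w)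
      = Descent_io (Fin n → V) (Descent_co n w) := by
  simp [Descent_al]

/-- The base change of the exterior algebra. -/
private noncomputable def Descent_be (F' : Type) [Field F'] [Algebra F F'] (n : ℕ) :
    ExteriorAlgebra F (Fin n → V) →ₐ[F] ExteriorAlgebra F' (Fin n → F' ⊗[F] V) :=
  ExteriorAlgebra.lift F
    ⟨(ExteriorAlgebra.ι F' : (Fin n → F' ⊗[F] V) →ₗ[F'] _).restrictScalars F ∘ₗ
      ((TensorProduct.mk F F' V 1).compLeft (Fin n)), fun w => by
    simp only [LinearMap.comp_apply, LinearMap.restrictScalars_apply]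
    exact ExteriorAlgebra.ι_sq_zero _⟩

private lemma Descent_be_ι (n : ℕ) (w : Fin n → V) :
    Descent_be F' n (ExteriorAlgebra.ι F w)
      = ExteriorAlgebra.ι F' (fun a => (1 : F') ⊗ₜ[F] w a) := by
  simp only [Descent_be, ExteriorAlgebra.lift_ι_apply, LinearMap.comp_apply,
    LinearMap.restrictScalars_apply]
  rfl

private lemma Descent_al_be (n : ℕ) (x : ExteriorAlgebra F (Fin n → V)) :
    Descent_al n (Descent_be F' n x) = (1 : F') ⊗ₜ[F] x := by
  have h : ((Descent_al (F := F) (V := V) n).restrictScalars F).comp (Descent_be F' n)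
      = Algebra.TensorProduct.includeRight := by
    apply ExteriorAlgebra.hom_ext
    ext w
    simp only [AlgHom.toLinearMap_apply, LinearMap.comp_apply, AlgHom.comp_apply,
      AlgHom.restrictScalars_apply, Descent_be_ι, Descent_al_ι, Descent_co_apply,
      Algebra.TensorProduct.includeRight_apply]
    simp only [LinearMap.baseChange_tmul, ← TensorProduct.tmul_sum]
    rw [Descent_io, LinearMap.baseChange_tmul]
    congr 2
    exact Finset.univ_sum_single _
  exact DFunLike.congr_fun h x

private lemma Descent_al_map (n : ℕ) (T : V →ₗ[F] V)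
    (z : ExteriorAlgebra F' (Fin n → F' ⊗[F] V)) :
    Descent_al n (ExteriorAlgebra.map ((T.baseChange F').compLeft (Fin n)) z)
      = Algebra.TensorProduct.map (AlgHom.id F' F')
        (ExteriorAlgebra.map (T.compLeft (Fin n))) (Descent_al n z) := by
  have h : (Descent_al (F := F) (V := V) n).comp
      (ExteriorAlgebra.map ((T.baseChange F').compLeft (Fin n)))
      = (Algebra.TensorProduct.map (AlgHom.id F' F')
        (ExteriorAlgebra.map (T.compLeft (Fin n)))).comp (Descent_al n) := by
    apply ExteriorAlgebra.hom_ext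
    refine LinearMap.ext fun w => ?_
    simp only [AlgHom.toLinearMap_apply, LinearMap.comp_apply, AlgHom.comp_apply,
      ExteriorAlgebra.map_apply_ι, Descent_al_ι, Descent_co_apply, map_sum]
    refine Finset.sum_congr rfl fun a _ => ?_
    simp only [LinearMap.compLeft_apply, Function.comp_apply]
    generalize w a = t
    induction t using TensorProduct.induction_on with
    | zero => simp
    | add x y hx hy => simp only [map_add, hx, hy]
    | tmul c v =>
      simp only [Descent_io, LinearMap.baseChange_tmul, Algebra.TensorProduct.map_tmul,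
        AlgHom.id_apply, ExteriorAlgebra.map_apply_ι]
      have e : (T.compLeft (Fin n)) (LinearMap.single F (fun _ : Fin n => V) a v)
          = LinearMap.single F (fun _ : Fin n => V) a (T v) := by
        funext b
        simp only [LinearMap.compLeft_apply, Function.comp_apply, LinearMap.coe_single]
        by_cases hb : b = a
        · subst hb; simp
        · simp [Pi.single_eq_of_ne hb]
      rw [e]
  exact DFunLike.congr_fun h z

private lemma Descent_be_map (n : ℕ) (T : V →ₗ[F] V)
    (x : ExteriorAlgebra F (Fin n → V)) :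
    Descent_be F' n (ExteriorAlgebra.map (T.compLeft (Fin n)) x)
      = ExteriorAlgebra.map ((T.baseChange F').compLeft (Fin n)) (Descent_be F' n x) := by
  have h : (Descent_be F' (V := V) n).comp (ExteriorAlgebra.map (T.compLeft (Fin n)))
      = ((ExteriorAlgebra.map ((T.baseChange F').compLeft (Fin n))).restrictScalars F).comp
        (Descent_be F' n) := by
    apply ExteriorAlgebra.hom_ext
    ext w
    simp only [AlgHom.toLinearMap_apply, LinearMap.comp_apply, AlgHom.comp_apply,
      ExteriorAlgebra.map_apply_ι, Descent_be_ι, AlgHom.restrictScalars_apply]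
    congr 1
  exact DFunLike.congr_fun h x

private lemma Descent_p0 (R M : Type) [CommRing R] [AddCommGroup M] [Module R M] :
    (⋀[R]^0 M) = 1 := pow_zero _

private lemma Descent_ps (R M : Type) [CommRing R] [AddCommGroup M] [Module R M] (i : ℕ) :
    (⋀[R]^(i.succ) M) = LinearMap.range (ExteriorAlgebra.ι R : M →ₗ[R] _) * (⋀[R]^i M) :=
  pow_succ' _ _

private lemma Descent_be_pow (n m : ℕ) {x : ExteriorAlgebra F (Fin n → V)}
    (hx : x ∈ ⋀[F]^m (Fin n → V)) :
    Descent_be F' n x ∈ ⋀[F']^m (Fin n → F' ⊗[F] V) := by
  induction hx using Submodule.pow_induction_on_left' with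
  | algebraMap r =>
    rw [AlgHom.commutes, IsScalarTower.algebraMap_apply F F', Descent_p0]
    exact Submodule.algebraMap_mem _
  | add x y i hx hy h₁ h₂ =>
    rw [map_add]
    exact Submodule.add_mem _ h₁ h₂
  | mem_mul v hv i x hx h =>
    rw [map_mul, Descent_ps]
    obtain ⟨w, rfl⟩ := hv
    refine Submodule.mul_mem_mul ?_ h
    rw [Descent_be_ι]
    exact LinearMap.mem_range_self _ _

/-- A coordinate. -/
private noncomputable def Descent_pr (E : Type) [AddCommGroup E] [Module F E]
    (φ : F' →ₗ[F] F) : F' ⊗[F] E →ₗ[F] E :=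
  (TensorProduct.lid F E).toLinearMap ∘ₗ (LinearMap.rTensor E φ)

private lemma Descent_pr_tmul (E : Type) [AddCommGroup E] [Module F E]
    (φ : F' →ₗ[F] F) (a : F') (y : E) : Descent_pr E φ (a ⊗ₜ[F] y) = φ a • y := by
  simp [Descent_pr]

private lemma Descent_pr_map {E : Type} [Ring E] [Algebra F E] (f : E →ₐ[F] E)
    (φ : F' →ₗ[F] F) (t : F' ⊗[F] E) :
    Descent_pr E φ (Algebra.TensorProduct.map (AlgHom.id F' F') f t)
      = f (Descent_pr E φ t) := by
  induction t using TensorProduct.induction_on with
  | zero => simp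
  | add x y hx hy => rw [map_add, map_add, hx, hy, map_add, map_add]
  | tmul a v =>
    rw [Algebra.TensorProduct.map_tmul, Descent_pr_tmul, Descent_pr_tmul, map_smul]
    rfl

/-- The image of the exterior power. -/
private lemma Descent_al_pow (n m : ℕ) {z : ExteriorAlgebra F' (Fin n → F' ⊗[F] V)}
    (hz : z ∈ ⋀[F']^m (Fin n → F' ⊗[F] V)) :
    Descent_al n z ∈ (⋀[F]^m (Fin n → V)).baseChange F' := by
  induction hz using Submodule.pow_induction_on_left' with
  | algebraMap r =>
    rw [AlgHom.commutes, Algebra.TensorProduct.algebraMap_apply, Algebra.algebraMap_self_apply,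
      Descent_p0]
    exact Submodule.tmul_mem_baseChange_of_mem _ (Submodule.one_le.1 le_rfl)
  | add x y i hx hy h₁ h₂ =>
    rw [map_add]
    exact Submodule.add_mem _ h₁ h₂
  | mem_mul v hv i x hx h =>
    obtain ⟨w, rfl⟩ := hv
    rw [map_mul, Descent_al_ι]
    generalize Descent_co n w = s
    generalize Descent_al n x = t at h
    have hs : Descent_io (F' := F') (Fin n → V) s
        ∈ (LinearMap.range (ExteriorAlgebra.ι F : (Fin n → V) →ₗ[F] _)).baseChange F' := by
      induction s using TensorProduct.induction_on with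
      | zero => simp
      | add x y hx hy => rw [map_add]; exact Submodule.add_mem _ hx hy
      | tmul c v =>
        rw [Descent_io, LinearMap.baseChange_tmul]
        exact Submodule.tmul_mem_baseChange_of_mem _ (LinearMap.mem_range_self _ _)
    generalize Descent_io (F' := F') (Fin n → V) s = u at hs
    rw [Submodule.baseChange_eq_span] at hs
    induction hs using Submodule.span_induction with
    | zero => simp
    | add x y _ _ hx hy => rw [add_mul]; exact Submodule.add_mem _ hx hy
    | smul a x _ hx => rw [smul_mul_assoc]; exact Submodule.smul_mem _ _ hx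
    | mem u hu =>
      obtain ⟨e, he, rfl⟩ := hu
      rw [Submodule.baseChange_eq_span] at h
      induction h using Submodule.span_induction with
      | zero => simp
      | add x y _ _ hx hy => rw [mul_add]; exact Submodule.add_mem _ hx hy
      | smul a x _ hx => rw [mul_smul_comm]; exact Submodule.smul_mem _ _ hx
      | mem t ht =>
        obtain ⟨f, hf, rfl⟩ := ht
        simp only [TensorProduct.mk_apply, Algebra.TensorProduct.tmul_mul_tmul, mul_one]
        refine Submodule.tmul_mem_baseChange_of_mem _ ?_
        rw [Descent_ps]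
        exact Submodule.mul_mem_mul he hf

end aux

variable {Γ : Type} [Group Γ] [TopologicalSpace Γ] {F F' : Type} [Field F] [Field F']
  [Algebra F F'] {V : Type} [AddCommGroup V] [Module F V] [FiniteDimensional F V]

omit [FiniteDimensional F V] in
private lemma Descent_tate (T : Γ → V →ₗ[F] V) (χ : Γ →* Fˣ) (n i : ℕ)
    {x : ExteriorAlgebra F (Fin n → V)}
    (hx : TateClass (fun γ => (T γ).compLeft (Fin n)) χ i x) :
    TateClass (fun γ => ((T γ).baseChange F').compLeft (Fin n))
        ((Units.map (algebraMap F F' : F →* F')).comp χ) i (Descent_be F' n x) := by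
  obtain ⟨h, U, hU⟩ := hx
  refine ⟨Descent_be_pow n _ h, U, fun γ hγ => ?_⟩
  have := congrArg (Descent_be F' n) (hU γ hγ)
  rw [map_smul, Descent_be_map] at this
  conv_rhs => rw [← this]
  rw [← algebraMap_smul F' ((χ γ : F) ^ i), map_pow]
  rfl

omit [FiniteDimensional F V] in
private lemma Descent_tate' (T : Γ → V →ₗ[F] V) (χ : Γ →* Fˣ) (n i : ℕ)
    {z : ExteriorAlgebra F' (Fin n → F' ⊗[F] V)}
    (hz : TateClass (fun γ => ((T γ).baseChange F').compLeft (Fin n))
        ((Units.map (algebraMap F F' : F →* F')).comp χ) i z) (φ : F' →ₗ[F] F) :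
    TateClass (fun γ => (T γ).compLeft (Fin n)) χ i (Descent_pr _ φ (Descent_al n z)) := by
  obtain ⟨h, U, hU⟩ := hz
  refine ⟨?_, U, fun γ hγ => ?_⟩
  · have h1 := Descent_al_pow n _ h
    generalize Descent_al n z = t at h1
    rw [Submodule.baseChange_eq_span] at h1
    have h2 : ∀ a : F', Descent_pr _ φ (a • t) ∈ ⋀[F]^(2 * i) (Fin n → V) := by
      induction h1 using Submodule.span_induction with
      | zero => simp
      | add x y _ _ hx hy =>
        intro a
        rw [smul_add, map_add]
        exact Submodule.add_mem _ (hx a) (hy a)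
      | smul b x _ hx => intro a; rw [smul_smul]; exact hx _
      | mem u hu =>
        intro a
        obtain ⟨e, he, rfl⟩ := hu
        rw [TensorProduct.mk_apply, TensorProduct.smul_tmul', Descent_pr_tmul]
        exact Submodule.smul_mem _ _ he
    simpa using h2 1
  · have := congrArg (fun y => Descent_pr _ φ (Descent_al n y)) (hU γ hγ)
    simp only [MonoidHom.comp_apply, Units.coe_map, ← map_pow, MonoidHom.coe_coe,
      map_smul, Descent_al_map] at this
    rw [algebraMap_smul, map_smul, Descent_pr_map] at this
    exact this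

omit [FiniteDimensional F V] in
private lemma Descent_div (T : Γ → V →ₗ[F] V) (χ : Γ →* Fˣ) (n : ℕ)
    {z : ExteriorAlgebra F' (Fin n → F' ⊗[F] V)}
    (hz : z ∈ divisorAlg (fun γ => ((T γ).baseChange F').compLeft (Fin n))
        ((Units.map (algebraMap F F' : F →* F')).comp χ)) :
    Descent_al n z ∈ Subalgebra.baseChange F'
      (divisorAlg (fun γ => (T γ).compLeft (Fin n)) χ) := by
  induction hz using Algebra.adjoin_induction with
  | algebraMap r => rw [AlgHom.commutes]; exact Subalgebra.algebraMap_mem _ _
  | add x y _ _ hx hy => rw [map_add]; exact Subalgebra.add_mem _ hx hy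
  | mul x y _ _ hx hy => rw [map_mul]; exact Subalgebra.mul_mem _ hx hy
  | mem z hz =>
    have h : ∀ φ : F' →ₗ[F] F, Descent_pr _ φ (Descent_al n z)
        ∈ divisorAlg (fun γ => (T γ).compLeft (Fin n)) χ := fun φ =>
      Algebra.subset_adjoin (Descent_tate' T χ n 1 hz φ)
    generalize Descent_al n z = t at h
    classical
    let b := Module.Free.chooseBasis F F'
    have key : t = ((TensorProduct.equivFinsuppOfBasisLeft b t).sum
        fun k y => b k ⊗ₜ[F] y) := by
      conv_lhs => rw [← (TensorProduct.equivFinsuppOfBasisLeft b).symm_apply_apply t]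
      rw [TensorProduct.equivFinsuppOfBasisLeft_symm_apply]
    rw [key]
    refine Subalgebra.sum_mem _ fun k _ => ?_
    have e : TensorProduct.equivFinsuppOfBasisLeft b t k = Descent_pr _ (b.coord k) t :=
      TensorProduct.equivFinsuppOfBasisLeft_apply b t k
    rw [e]
    exact Subalgebra.tmul_mem_baseChange (h _) _

/-- If there are no exotic Tate classes after an extension of the coefficients, there are none. -/
theorem descentAt [CharZero F] (T : Γ → V →ₗ[F] V) (χ : Γ →* Fˣ) (n i : ℕ)
    (h : ∀ (x : ExteriorAlgebra F' (Fin n → F' ⊗[F] V)),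
      ¬ ExoticTateClass (fun γ => ((T γ).baseChange F').compLeft (Fin n))
        ((Units.map (algebraMap F F' : F →* F')).comp χ) i x)
    (x : ExteriorAlgebra F (Fin n → V)) :
    ¬ ExoticTateClass (fun γ => (T γ).compLeft (Fin n)) χ i x := by
  rintro ⟨hx, hnx⟩
  have h1 : Descent_be F' n x ∈ divisorAlg (fun γ => ((T γ).baseChange F').compLeft (Fin n))
        ((Units.map (algebraMap F F' : F →* F')).comp χ) := by
    by_contra hc
    exact h _ ⟨Descent_tate T χ n i hx, hc⟩
  have h2 := Descent_div T χ n h1
  rw [Descent_al_be] at h2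
  obtain ⟨φ, hφ⟩ : ∃ φ : F' →ₗ[F] F, φ 1 = 1 := by
    obtain ⟨φ, hφ⟩ := LinearMap.exists_leftInverse_of_injective (Algebra.linearMap F F')
      (LinearMap.ker_eq_bot.2 (algebraMap F F').injective)
    refine ⟨φ, ?_⟩
    have := DFunLike.congr_fun hφ 1
    simpa using this
  apply hnx
  have h3 : ∀ t ∈ Subalgebra.baseChange F'
      (divisorAlg (fun γ => (T γ).compLeft (Fin n)) χ),
      Descent_pr _ φ t ∈ divisorAlg (fun γ => (T γ).compLeft (Fin n)) χ := by
    rintro _ ⟨u, rfl⟩
    induction u using TensorProduct.induction_on with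
    | zero => simp
    | add x y hx hy => rw [map_add, map_add]; exact Subalgebra.add_mem _ hx hy
    | tmul a v =>
      have e : (Algebra.TensorProduct.map (AlgHom.id F' F')
          (divisorAlg (fun γ => (T γ).compLeft (Fin n)) χ).val) (a ⊗ₜ[F] v)
          = a ⊗ₜ[F] (v : ExteriorAlgebra F (Fin n → V)) := rfl
      erw [e, Descent_pr_tmul]
      exact Subalgebra.smul_mem _ v.2 _
  have h4 := h3 _ h2
  rwa [Descent_pr_tmul, hφ, one_smul] at h4

end Pool.Agent.Lib.MP_640417_ag.Gr
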