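import Pool.Agent.Lib.MP_640417_ag.Frob.BaseRep
import Pool.Agent.Lib.MP_640417_ag.Gr.Middle
import Pool.Agent.Lib.MP_640417_ag.Gr.Descent

/-!
# Representations in which the eigenvalues of one Frobenius satisfy only the trivial relations
-/

namespace Pool.Agent.Lib.MP_640417_ag.Gr

open Module Polynomial TensorProduct Pool.Agent.Lib.MP_640417_ag.Frob

variable {Γ : Type} [Group Γ] [TopologicalSpace Γ] {F : Type} [Field F] [TopologicalSpace F]
  {V : Type} [AddCommGroup V] [Module F V] [FiniteDimensional F V]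

/-- If the roots of `P` satisfy only the trivial relations of degree at most `2 k`, there are no
exotic Tate classes of codimension at most `k`. -/
theorem main_of_angle [CharZero F] [IsTopologicalRing F] [T1Space F]
    [IsTopologicalGroup Γ] [CompactSpace Γ]
    (ρ : H1Rep Γ F V) (φ : Γ) (p a k : ℕ) (P : ℤ[X]) (hφ : IsFrobenius ρ φ p a P)
    (hsep : (P.map (Int.castRingHom ℚ)).Separable)
    (hangle : ∀ (K : Type) [Field K] [CharZero K] (I : Type) [Fintype I] [DecidableEq I]
      (lam : I → K) (c : I → I), Fintype.card I = finrank F V →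
      P.map (Int.castRingHom K) = ∏ i, (X - C (lam i)) → (∀ i, c (c i) = i) →
      (∀ i, c i ≠ i) → (∀ i, lam (c i) * lam i = (p : K) ^ a) →
      ∀ (m : I → ℕ) (j : ℕ), j ≤ k → ∑ v, m v = 2 * j → ∀ N : ℕ, 0 < N →
      (∏ v, lam v ^ (m v : ℤ)) ^ N = (((p : K) ^ a) ^ (j : ℤ)) ^ N → ∀ v, m v = m (c v))
    (n i : ℕ) (hi : i ≤ k) (x : ExteriorAlgebra F (Fin n → V)) :
    ¬ ExoticTateClass (fun γ => (ρ.T γ).compLeft (Fin n)) ρ.χ i x := by
  classical
  let K : Type := AlgebraicClosure F
  have hcharK : CharZero K := charZero_of_injective_algebraMap (algebraMap F K).injective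
  refine descentAt (F' := K) (fun γ => ρ.T γ) ρ.χ n i ?_ x
  intro y
  let T' : Γ →* Module.End K (K ⊗[F] V) :=
    ((Module.End.baseChangeHom F K V : Module.End F V →ₐ[F] Module.End K (K ⊗[F] V)) :
      Module.End F V →* Module.End K (K ⊗[F] V)).comp ρ.T
  have hT' : ∀ γ, T' γ = (ρ.T γ).baseChange K := fun γ => rfl
  let χ' : Γ →* Kˣ := (Units.map (algebraMap F K : F →* K)).comp ρ.χ
  have hχ' : ∀ γ, ((χ' γ)⁻¹ : Kˣ).val = algebraMap F K ((ρ.χ γ)⁻¹ : Fˣ).val := by
    intro γ
    simp only [χ', MonoidHom.comp_apply, ← map_inv, Units.coe_map, MonoidHom.coe_coe]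
  have hchar : (T' φ).charpoly = P.map (Int.castRingHom K) := by
    rw [hT', LinearMap.charpoly_baseChange, hφ.charpoly, Polynomial.map_map]
    congr 1
  have hcyc : ((χ' φ)⁻¹ : Kˣ).val = (p : K) ^ a := by
    rw [hχ', hφ.cyclotomic, map_pow, map_natCast]
  refine middle T' χ' ?_ (ρ.form.baseChange K) (alt_baseChange K ρ.form ρ.form_alt)
    (nondeg_baseChange K ρ.form ρ.form_alt ρ.form_nondeg) ?_ φ k ?_ ?_ n i hi y
  · intro f z
    exact closed_baseChange K (fun γ => ρ.T γ) ρ.continuous_coeff f z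
  · intro γ x y
    rw [hχ']
    exact equivariant_baseChange K ρ.form (ρ.T γ) _ (ρ.form_equivariant γ) x y
  · rw [hchar]
    have e1 : P.map (Int.castRingHom K) = (P.map (Int.castRingHom ℚ)).map (algebraMap ℚ K) := by
      rw [Polynomial.map_map]
      congr 1
      exact RingHom.ext_int _ _
    rw [e1, separable_map]
    exact hsep
  · intro I _ _ lam c hprod hc hcne hlc m j hj hm N hN hrel
    rw [hcyc] at hrel
    refine hangle K I lam c ?_ (by rw [← hchar, hprod]) hc hcne
      (fun i => by rw [hlc, hcyc]) m j hj hm N hN hrel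
    have h1 : (T' φ).charpoly.natDegree = Fintype.card I := by
      rw [hprod, natDegree_prod_of_monic _ _ (fun i _ => monic_X_sub_C _)]
      simp
    rw [← h1, LinearMap.charpoly_natDegree, hT' φ |> fun _ => Module.finrank_baseChange]

end Pool.Agent.Lib.MP_640417_ag.Gr
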