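import Pool.Agent.Lib.MP_640417_ag.Place.Defs
import Pool.Agent.Lib.MP_640417_ag.Gr.General
import Pool.Agent.Lib.MP_640417_ag.Frob.Slope
import Pool.Agent.Lib.MP_640417_ag.ConjGal

/-!
# An ordinary place excludes exotic classes of low codimension
-/

namespace Pool.Agent.Lib.MP_640417_ag.Gr

open Module Polynomial NumberField Pool.Agent.Lib.MP_640417_ag Pool.Agent.Lib.MP_640417_ag.Frob
  Pool.Agent.Lib.MP_640417_ag.Place

variable {E : Type} [Field E] [NumberField E] [IsCMField E]

/-- If the sign vector of `Φ` has no relations with at most four nonzero values, `Φ` is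
primitive. -/
lemma primitive_of_four {Φ : Set (Emb E)} (hΦ : IsCMType Φ)
    (hlat : ∀ v ∈ relLattice Φ, {s : Emb E | v s ≠ 0}.ncard ≤ 4 → v = 0) (φ ψ : Emb E)
    (h : ∀ τ : AbsGal, galEmb τ φ ∈ Φ ↔ galEmb τ ψ ∈ Φ) : φ = ψ := by
  classical
  by_contra hne
  let v : Emb E → ℤ := fun s => (if s = φ then 1 else 0) - (if s = ψ then 1 else 0)
    - (if s = conjEmb φ then 1 else 0) + (if s = conjEmb ψ then 1 else 0)
  have hcj : ∀ s t : Emb E, conjEmb s = t ↔ s = conjEmb t := by
    intro s t
    constructor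
    · rintro rfl
      rw [conjEmb_conjEmb]
    · rintro rfl
      rw [conjEmb_conjEmb]
  have hv : v ∈ relLattice Φ := by
    refine ⟨fun s => ?_, fun τ => ?_⟩
    · simp only [v, hcj, conjEmb_conjEmb]
      ring
    · simp only [v, add_mul, sub_mul, Finset.sum_add_distrib, Finset.sum_sub_distrib, ite_mul,
        one_mul, zero_mul, Finset.sum_ite_eq', Finset.mem_univ, if_true]
      have h1 : sgnZ Φ (galEmb τ φ) = sgnZ Φ (galEmb τ ψ) := by
        by_cases h5 : galEmb τ ψ ∈ Φ
        · simp only [sgnZ, h5, (h τ).mpr h5, if_true]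
        · have h6 : galEmb τ φ ∉ Φ := fun h7 => h5 ((h τ).mp h7)
          simp only [sgnZ, h5, h6, if_false]
      rw [galEmb_conjEmb, galEmb_conjEmb, sgnZ_conj hΦ, sgnZ_conj hΦ, h1]
      ring
  have hcard : {s : Emb E | v s ≠ 0}.ncard ≤ 4 := by
    have hsub : {s : Emb E | v s ≠ 0} ⊆ (({φ, ψ, conjEmb φ, conjEmb ψ} : Finset (Emb E)) :
        Set (Emb E)) := by
      intro s hs
      by_contra hcon
      simp only [Finset.coe_insert, Finset.coe_singleton, Set.mem_insert_iff,
        Set.mem_singleton_iff, not_or] at hcon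
      apply hs
      simp [v, hcon.1, hcon.2.1, hcon.2.2.1, hcon.2.2.2]
    calc {s : Emb E | v s ≠ 0}.ncard
        ≤ (({φ, ψ, conjEmb φ, conjEmb ψ} : Finset (Emb E)) : Set (Emb E)).ncard :=
          Set.ncard_le_ncard hsub (Finset.finite_toSet _)
      _ ≤ 4 := by
        rw [Set.ncard_coe_finset]
        exact Finset.card_le_four
  have h0 := congrFun (hlat v hv hcard) φ
  have h2 : φ ≠ conjEmb φ := fun h3 => conjEmb_ne φ h3.symm
  simp only [v, if_true, if_neg hne, if_neg h2, Pi.zero_apply] at h0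
  by_cases h3 : φ = conjEmb ψ
  · rw [if_pos h3] at h0
    norm_num at h0
  · rw [if_neg h3] at h0
    norm_num at h0

/-- The eigenvalues of a Frobenius of a type without relations of small support satisfy only the
trivial relations of low degree. -/
theorem angle_small {Φ : Set (Emb E)} (hΦ : IsCMType Φ) (b : ℕ) (hb : 1 ≤ b)
    (hlat : ∀ v ∈ relLattice Φ, {s : Emb E | v s ≠ 0}.ncard ≤ 4 * b → v = 0)
    (p a : ℕ) [Fact p.Prime] (ha : 0 < a) (P : ℤ[X]) (π : E)
    (v : AlgebraicClosure ℚ →+* PadicAlgCl p)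
    (hP : P.map (Int.castRingHom ℚ) = minpoly ℚ π)
    (hdeg : (minpoly ℚ π).natDegree = finrank ℚ E)
    (hin : ∀ ψ ∈ Φ, ‖v (ψ π)‖ = ((p : ℝ) ^ a)⁻¹) (hout : ∀ ψ ∉ Φ, ‖v (ψ π)‖ = 1)
    {K I : Type} [Field K] [CharZero K] [Fintype I] [DecidableEq I] (lam : I → K) (c : I → I)
    (hprod : P.map (Int.castRingHom K) = ∏ i, (X - C (lam i)))
    (hlc : ∀ i, lam (c i) * lam i = (p : K) ^ a) (m' : I → ℕ) (j : ℕ) (hj : j ≤ b)
    (hmj : ∑ i, m' i = 2 * j) (N : ℕ) (hN : 0 < N)
    (hrel' : (∏ i, lam i ^ (m' i : ℤ)) ^ N = (((p : K) ^ a) ^ (j : ℤ)) ^ N) (i₀ : I) :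
    m' i₀ = m' (c i₀) := by
  classical
  let m : I → ℤ := fun i => (m' i : ℤ)
  let k : ℤ := (j : ℤ)
  have hrel : (∏ i, lam i ^ m i) ^ N = (((p : K) ^ a) ^ k) ^ N := hrel'
  have hp : p.Prime := Fact.out
  have hPm : P.Monic := by
    have h1 : (P.map (Int.castRingHom K)).Monic := by
      rw [hprod]
      exact monic_prod_of_monic _ _ (fun i _ => monic_X_sub_C _)
    exact Polynomial.monic_of_injective (RingHom.injective_int _) h1
  let L : IntermediateField ℚ K := IntermediateField.adjoin ℚ (Set.range lam)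
  have hint : ∀ i, IsIntegral ℚ (lam i) := by
    intro i
    refine ⟨P.map (Int.castRingHom ℚ), hPm.map _, ?_⟩
    have h1 : (P.map (Int.castRingHom K)).eval (lam i) = 0 := by
      rw [hprod, eval_prod]
      apply Finset.prod_eq_zero (Finset.mem_univ i)
      simp
    rw [eval₂_map]
    rw [eval_map] at h1
    have h2 : (algebraMap ℚ K).comp (Int.castRingHom ℚ) = Int.castRingHom K :=
      RingHom.ext_int _ _
    rw [h2]
    exact h1
  have halg : Algebra.IsAlgebraic ℚ L :=
    IntermediateField.isAlgebraic_adjoin (by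
      rintro x ⟨i, rfl⟩
      exact hint i)
  let σ : L →ₐ[ℚ] AlgebraicClosure ℚ := IsAlgClosed.lift
  have hmem : ∀ i, lam i ∈ L := fun i => IntermediateField.subset_adjoin ℚ _ ⟨i, rfl⟩
  let lamL : I → L := fun i => ⟨lam i, hmem i⟩
  let μ : I → AlgebraicClosure ℚ := fun i => σ (lamL i)
  have hPL : P.map (Int.castRingHom L) = ∏ i, (X - C (lamL i)) := by
    apply Polynomial.map_injective (algebraMap L K) (algebraMap L K).injective
    rw [Polynomial.map_map, Polynomial.map_prod]
    have h1 : (algebraMap L K).comp (Int.castRingHom L) = Int.castRingHom K :=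
      RingHom.ext_int _ _
    rw [h1, hprod]
    apply Finset.prod_congr rfl
    intro i _
    rw [Polynomial.map_sub, Polynomial.map_X, Polynomial.map_C]
    rfl
  have hPQ : P.map (Int.castRingHom (AlgebraicClosure ℚ)) = ∏ i, (X - C (μ i)) := by
    have h1 : (σ : L →+* AlgebraicClosure ℚ).comp (Int.castRingHom L) =
        Int.castRingHom (AlgebraicClosure ℚ) := RingHom.ext_int _ _
    rw [← h1, ← Polynomial.map_map, hPL, Polynomial.map_prod]
    apply Finset.prod_congr rfl
    intro i _
    rw [Polynomial.map_sub, Polynomial.map_X, Polynomial.map_C]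
    rfl
  have hlcμ : ∀ i, μ (c i) * μ i = (p : AlgebraicClosure ℚ) ^ a := by
    intro i
    have h1 : lamL (c i) * lamL i = (p : L) ^ a := by
      apply Subtype.ext
      have := hlc i
      push_cast
      exact this
    have := congrArg σ h1
    rw [map_mul, map_pow, map_natCast] at this
    exact this
  have hrelμ : (∏ i, μ i ^ m i) ^ N = (((p : AlgebraicClosure ℚ) ^ a) ^ k) ^ N := by
    have hrelL : (∏ i, lamL i ^ m i) ^ N = (((p : L) ^ a) ^ k) ^ N := by
      apply (algebraMap L K).injective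
      rw [map_pow, map_prod, map_pow, map_zpow₀, map_pow, map_natCast]
      simp only [map_zpow₀]
      exact hrel
    have h1 := congrArg σ hrelL
    rw [map_pow, map_prod, map_pow, map_zpow₀, map_pow, map_natCast] at h1
    simp only [map_zpow₀] at h1
    exact h1
  -- embeddings and roots
  have hroot : ∀ ψ : Emb E, ∃ i, ψ π = μ i := by
    intro ψ
    have h1 : (P.map (Int.castRingHom (AlgebraicClosure ℚ))).eval (ψ π) = 0 := by
      have h2 : (ψ.comp (algebraMap ℚ E)) = algebraMap ℚ (AlgebraicClosure ℚ) :=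
        Subsingleton.elim _ _
      have h3 : (algebraMap ℚ (AlgebraicClosure ℚ)).comp (Int.castRingHom ℚ) =
          Int.castRingHom (AlgebraicClosure ℚ) := RingHom.ext_int _ _
      rw [← h3, ← Polynomial.map_map, hP, eval_map, ← h2, ← Polynomial.hom_eval₂]
      have h4 := minpoly.aeval ℚ π
      rw [aeval_def] at h4
      rw [h4, map_zero]
    rw [hPQ, eval_prod, Finset.prod_eq_zero_iff] at h1
    obtain ⟨i, -, hi⟩ := h1
    rw [eval_sub, eval_X, eval_C, sub_eq_zero] at hi
    exact ⟨i, hi⟩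
  choose idx hidx using hroot
  have htop : IntermediateField.adjoin ℚ {π} = ⊤ :=
    (Field.primitive_element_iff_minpoly_natDegree_eq ℚ π).mpr hdeg
  have hdet : ∀ ψ ψ' : Emb E, ψ π = ψ' π → ψ = ψ' := by
    intro ψ ψ' h
    let f : E →ₐ[ℚ] AlgebraicClosure ℚ := RingHom.toRatAlgHom ψ
    let f' : E →ₐ[ℚ] AlgebraicClosure ℚ := RingHom.toRatAlgHom ψ'
    have h1 : f = f' := by
      apply AlgHom.ext
      intro x
      have hx : x ∈ IntermediateField.adjoin ℚ {π} := by rw [htop]; trivial
      induction hx using IntermediateField.adjoin_induction with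
      | mem y hy =>
        rw [Set.mem_singleton_iff] at hy
        rw [hy]
        exact h
      | algebraMap q => rw [f.commutes, f'.commutes]
      | add y w _ _ hy hw => rw [map_add, map_add, hy, hw]
      | inv y _ hy => rw [map_inv₀, map_inv₀, hy]
      | mul y w _ _ hy hw => rw [map_mul, map_mul, hy, hw]
    apply RingHom.ext
    intro x
    exact congrArg (fun g : E →ₐ[ℚ] AlgebraicClosure ℚ => g x) h1
  have hidx_inj : Function.Injective idx := by
    intro ψ ψ' h
    apply hdet
    rw [hidx ψ, hidx ψ', h]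
  have hcard : Fintype.card (Emb E) = Fintype.card I := by
    rw [card_emb, ← hdeg, ← hP]
    have h1 : (P.map (Int.castRingHom K)).natDegree = Fintype.card I := by
      rw [hprod, natDegree_prod_of_monic _ _ (fun i _ => monic_X_sub_C _)]
      simp
    rw [← h1, hPm.natDegree_map, hPm.natDegree_map]
  have hidx_bij : Function.Bijective idx :=
    (Fintype.bijective_iff_injective_and_card idx).mpr ⟨hidx_inj, hcard⟩
  let eq : Emb E ≃ I := Equiv.ofBijective idx hidx_bij
  -- the relation for every translate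
  have hsum : ∀ τ : AbsGal, ∑ ψ : Emb E, m (idx ψ) * (if galEmb τ ψ ∈ Φ then -1 else 0) = -k := by
    intro τ
    let ν : I → PadicAlgCl p := fun i => v (τ (μ i))
    have h1 : (∏ i, ν i ^ m i) ^ N = (((p : PadicAlgCl p) ^ a) ^ k) ^ N := by
      have h2 := congrArg (fun x => v (τ x)) hrelμ
      simp only [map_pow, map_prod, map_zpow₀, map_natCast] at h2
      exact h2
    have h2 : ∀ i, ‖ν i‖ ^ 1 = ((p : ℝ) ^ a) ^
        ((if galEmb τ (eq.symm i) ∈ Φ then -1 else 0 : ℤ)) := by
      intro i
      have h3 : μ i = (eq.symm i) π := by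
        rw [hidx (eq.symm i)]
        congr 1
        exact (eq.apply_symm_apply i).symm
      have h4 : ν i = v (galEmb τ (eq.symm i) π) := by
        simp only [ν, h3]
        rfl
      rw [pow_one, h4]
      by_cases h5 : galEmb τ (eq.symm i) ∈ Φ
      · rw [if_pos h5, hin _ h5, zpow_neg_one]
      · rw [if_neg h5, hout _ h5, zpow_zero]
    have h3 := sum_of_relation p a ha ν 1 _ h2 m k N hN h1
    rw [Nat.cast_one, mul_one] at h3
    rw [← h3]
    apply Fintype.sum_equiv eq
    intro ψ
    rw [Equiv.symm_apply_apply]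
    rfl
  have hs : ∀ τ : AbsGal, ∑ ψ : Emb E, m (idx ψ) * sgnZ Φ (galEmb τ ψ) =
      2 * k - ∑ ψ : Emb E, m (idx ψ) := by
    intro τ
    have h1 : ∀ ψ : Emb E, m (idx ψ) * sgnZ Φ (galEmb τ ψ) =
        -2 * (m (idx ψ) * (if galEmb τ ψ ∈ Φ then -1 else 0)) - m (idx ψ) := by
      intro ψ
      by_cases h5 : galEmb τ ψ ∈ Φ
      · simp only [sgnZ, h5, if_true]
        ring
      · simp only [sgnZ, h5, if_false]
        ring
    rw [Finset.sum_congr rfl (fun ψ _ => h1 ψ), Finset.sum_sub_distrib, ← Finset.mul_sum, hsum τ]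
    ring
  obtain ⟨cc, hcc⟩ := exists_galEmb_conj E
  have hκ : 2 * k - ∑ ψ : Emb E, m (idx ψ) = 0 := by
    have h1 := hs cc
    have h2 := hs 1
    have h3 : ∑ ψ : Emb E, m (idx ψ) * sgnZ Φ (galEmb cc ψ) =
        - ∑ ψ : Emb E, m (idx ψ) * sgnZ Φ (galEmb 1 ψ) := by
      rw [← Finset.sum_neg_distrib]
      apply Finset.sum_congr rfl
      intro ψ _
      have h4 : galEmb 1 ψ = ψ := rfl
      rw [hcc, h4, sgnZ_conj hΦ]
      ring
    rw [h3, h2] at h1
    linarith
  have hlatv : (fun ψ : Emb E => m (idx ψ) - m (idx (conjEmb ψ))) ∈ relLattice Φ := by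
    refine ⟨fun ψ => ?_, fun τ => ?_⟩
    · simp only [conjEmb_conjEmb]
      ring
    · simp only [sub_mul]
      rw [Finset.sum_sub_distrib, hs τ, hκ]
      have h2 : ∑ ψ : Emb E, m (idx (conjEmb ψ)) * sgnZ Φ (galEmb τ ψ) =
          - ∑ ψ : Emb E, m (idx ψ) * sgnZ Φ (galEmb τ ψ) := by
        rw [← Finset.sum_neg_distrib]
        apply Fintype.sum_bijective conjEmb
          (Function.Involutive.bijective (conjEmb_conjEmb (E := E)))
        intro ψ
        rw [galEmb_conjEmb, sgnZ_conj hΦ]
        ring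
      rw [h2, hs τ, hκ]
      ring
  have hsupp : {s : Emb E | m (idx s) - m (idx (conjEmb s)) ≠ 0}.ncard ≤ 4 * b := by
    have hsub : {s : Emb E | m (idx s) - m (idx (conjEmb s)) ≠ 0} ⊆
        ((Finset.univ.filter (fun s : Emb E => m' (idx s) ≠ 0) ∪
          Finset.univ.filter (fun s : Emb E => m' (idx (conjEmb s)) ≠ 0) : Finset (Emb E)) :
          Set (Emb E)) := by
      intro s hs
      by_contra hcon
      simp only [Finset.coe_union, Finset.coe_filter, Finset.mem_univ, true_and, Set.mem_union,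
        Set.mem_setOf_eq, not_or, not_not] at hcon
      apply hs
      simp [m, hcon.1, hcon.2]
    have hc1 : (Finset.univ.filter (fun s : Emb E => m' (idx s) ≠ 0)).card ≤ 2 * j := by
      have h1 : ∑ s : Emb E, m' (idx s) = 2 * j := by
        rw [← hmj]
        exact Fintype.sum_equiv eq _ _ (fun s => rfl)
      rw [← h1, Finset.card_filter]
      apply Finset.sum_le_sum
      intro s _
      split_ifs with h
      · omega
      · omega
    have hc2 : (Finset.univ.filter (fun s : Emb E => m' (idx (conjEmb s)) ≠ 0)).card ≤ 2 * j := by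
      have h1 : ∑ s : Emb E, m' (idx (conjEmb s)) = 2 * j := by
        rw [← hmj]
        have h2 : ∑ s : Emb E, m' (idx (conjEmb s)) = ∑ s : Emb E, m' (idx s) :=
          Fintype.sum_bijective conjEmb
            (Function.Involutive.bijective (conjEmb_conjEmb (E := E))) _ _ (fun s => rfl)
        rw [h2]
        exact Fintype.sum_equiv eq _ _ (fun s => rfl)
      rw [← h1, Finset.card_filter]
      apply Finset.sum_le_sum
      intro s _
      split_ifs with h
      · omega
      · omega
    calc {s : Emb E | m (idx s) - m (idx (conjEmb s)) ≠ 0}.ncard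
        ≤ _ := Set.ncard_le_ncard hsub (Finset.finite_toSet _)
      _ ≤ 2 * j + 2 * j := by
        rw [Set.ncard_coe_finset]
        exact (Finset.card_union_le _ _).trans (add_le_add hc1 hc2)
      _ ≤ 4 * b := by omega
  have hzero := hlat _ hlatv hsupp
  -- the involution is complex conjugation
  have hcidx : ∀ ψ : Emb E, c (idx ψ) = idx (conjEmb ψ) := by
    intro ψ
    set ψ' : Emb E := eq.symm (c (idx ψ)) with hψ'
    have h1 : idx ψ' = c (idx ψ) := eq.apply_symm_apply _
    have h2 : ψ' π * ψ π = (p : AlgebraicClosure ℚ) ^ a := by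
      rw [hidx ψ', hidx ψ, h1]
      exact hlcμ _
    have h3 : ψ' = conjEmb ψ := by
      apply primitive_of_four hΦ (fun v hv h4 => hlat v hv (h4.trans (by omega)))
      intro τ
      have h4 : ‖v (galEmb τ ψ' π)‖ * ‖v (galEmb τ ψ π)‖ = ((p : ℝ) ^ a)⁻¹ := by
        have h5 := congrArg (fun x => ‖v (τ x)‖) h2
        simp only [map_mul, norm_mul, map_pow, map_natCast] at h5
        have h6 := norm_q p a
        rw [norm_pow] at h6
        rw [norm_pow, h6] at h5
        exact h5
      have hp1 : (1 : ℝ) < (p : ℝ) ^ a := one_lt_pow₀ (by exact_mod_cast hp.one_lt) ha.ne'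
      have hp2 : ((p : ℝ) ^ a)⁻¹ < 1 := inv_lt_one_of_one_lt₀ hp1
      have hp3 : 0 < ((p : ℝ) ^ a)⁻¹ := by positivity
      have h7 : galEmb τ ψ' ∈ Φ ↔ galEmb τ ψ ∉ Φ := by
        by_cases h8 : galEmb τ ψ' ∈ Φ <;> by_cases h9 : galEmb τ ψ ∈ Φ
        · exfalso
          rw [hin _ h8, hin _ h9] at h4
          nlinarith
        · simp [h8, h9]
        · simp [h8, h9]
        · exfalso
          rw [hout _ h8, hout _ h9] at h4
          linarith
      have h10 := hΦ (galEmb τ ψ)
      rw [h7, galEmb_conjEmb]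
      constructor
      · intro h11
        by_contra h12
        exact h11 (h10.mpr h12)
      · intro h11 h12
        exact (h10.mp h12) h11
    rw [← h1, h3]
  obtain ⟨ψ, rfl⟩ := hidx_bij.2 i₀
  rw [hcidx]
  have := congrFun hzero ψ
  simp only [Pi.zero_apply, m] at this
  omega

/-- **An ordinary place of a type without relations of support at most `4 k` excludes exotic classes
of codimension at most `k`.** -/
theorem no_exotic_le {Φ : Set (Emb E)} (hΦ : IsCMType Φ) (k : ℕ) (hk : 1 ≤ k)
    (hlat : ∀ v ∈ relLattice Φ, {s : Emb E | v s ≠ 0}.ncard ≤ 4 * k → v = 0)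
    {Γ : Type} [Group Γ] [TopologicalSpace Γ] [IsTopologicalGroup Γ] [CompactSpace Γ]
    {F : Type} [Field F] [TopologicalSpace F] [IsTopologicalRing F] [T1Space F] [CharZero F]
    {V : Type} [AddCommGroup V] [Module F V] [FiniteDimensional F V] (ρ : H1Rep Γ F V)
    (φ : Γ) (p : ℕ) [Fact p.Prime] (hpl : OrdinaryPlace Φ ρ φ p)
    (n i : ℕ) (hi : i ≤ k) (x : ExteriorAlgebra F (Fin n → V)) :
    ¬ ExoticTateClass (fun γ => (ρ.T γ).compLeft (Fin n)) ρ.χ i x := by
  classical
  obtain ⟨a, P, π, v, hφ, hP, hdeg, hv⟩ := hpl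
  refine main_of_angle ρ φ p a k P hφ ?_ ?_ n i hi x
  · rw [hP]
    exact (minpoly.irreducible (Algebra.IsIntegral.isIntegral π)).separable
  · intro K _ _ I _ _ lam c _ hprod _ _ hlc m j hj hm N hN hrel i₀
    refine angle_small hΦ k hk hlat p a hφ.pos P π v hP hdeg ?_ ?_ lam c hprod hlc m j hj hm N hN
      hrel i₀
    · intro ψ hψ
      have := hv ψ
      rw [if_pos hψ] at this
      exact this
    · intro ψ hψ
      have := hv ψ
      rw [if_neg hψ] at this
      exact this

end Pool.Agent.Lib.MP_640417_ag.Gr
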