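import Pool.Agent.Lib.MP_640417_ag.Frob.CarB
import Pool.Agent.Lib.MP_640417_ag.Frob.LieA

/-!
# The Lie algebra of matrices killing all Tate classes of bounded codimension
-/

namespace Pool.Agent.Lib.MP_640417_ag.Gr

open Module Pool.Agent.Lib.MP_640417_ag.Frob

variable {I : Type} [Fintype I] [DecidableEq I] {F : Type} [Field F] {K n : ℕ}
  {Γ : Type} [Group Γ] [TopologicalSpace Γ]

/-- `M` kills all Tate classes of codimension at most `K` on `Aⁿ` (as a derivation). -/
def KillsLe (K n : ℕ) (A : Γ →* Matrix I I F) (χ : Γ →* Fˣ) (M : Matrix I I F) : Prop :=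
  ∀ (i : ℕ), i ≤ K → ∀ (x : Lam I F n), TateClass (fun γ => Tn n (A γ)) χ i x → DD n M x = 0

private lemma LieA_map_Tn_mul (A B : Matrix I I F) (x : Lam I F n) :
    ExteriorAlgebra.map (Tn n A) (ExteriorAlgebra.map (Tn n B) x)
      = ExteriorAlgebra.map (Tn n (A * B)) x := by
  rw [Tn_mul, ← ExteriorAlgebra.map_comp_map]
  rfl

lemma killsLe_add (A : Γ →* Matrix I I F) (χ : Γ →* Fˣ) {M M' : Matrix I I F}
    (h : KillsLe K n A χ M) (h' : KillsLe K n A χ M') : KillsLe K n A χ (M + M') := by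
  intro i hi x hx
  rw [DD_add, LinearMap.add_apply, h i hi x hx, h' i hi x hx, add_zero]

lemma killsLe_smul (A : Γ →* Matrix I I F) (χ : Γ →* Fˣ) (r : F) {M : Matrix I I F}
    (h : KillsLe K n A χ M) : KillsLe K n A χ (r • M) := by
  intro i hi x hx
  rw [DD_smul, LinearMap.smul_apply, h i hi x hx, smul_zero]

lemma killsLe_comm (A : Γ →* Matrix I I F) (χ : Γ →* Fˣ) {M M' : Matrix I I F}
    (h : KillsLe K n A χ M) (h' : KillsLe K n A χ M') : KillsLe K n A χ (M * M' - M' * M) := by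
  intro i hi x hx
  rw [← DD_comm, h i hi x hx, h' i hi x hx, map_zero, map_zero, sub_zero]

lemma killsLe_conj [IsTopologicalGroup Γ] (A : Γ →* Matrix I I F) (χ : Γ →* Fˣ)
    {M : Matrix I I F} (h : KillsLe K n A χ M) (γ : Γ) : KillsLe K n A χ (A γ * M * A γ⁻¹) := by
  intro i hi x hx
  have h1 := h i hi _ (tateClass_translate A χ i x hx γ⁻¹)
  have h2 : A γ * M = (A γ * M * A γ⁻¹) * A γ := by
    rw [mul_assoc (A γ * M), ← map_mul, inv_mul_cancel, map_one, mul_one]
  have h3 := map_DD (n := n) h2 (ExteriorAlgebra.map (Tn n (A γ⁻¹)) x)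
  rw [h1, map_zero, LieA_map_Tn_mul, ← map_mul, mul_inv_cancel, map_one, Tn_one,
    ExteriorAlgebra.map_id] at h3
  exact h3.symm

end Pool.Agent.Lib.MP_640417_ag.Gr
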